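import Pool.Agent.W74.MD.Main

set_option autoImplicit false

namespace Pool.Agent.Results.MP_e56372_nt.PrescribedGrowth

open Pool.Agent.W74.MD

/-- For every badly approximable `ζ` there are `c > 0` and `C > 1` such that for every real
sequence `Q k` with `Q 0 ≥ C` and `Q (k+1) ≥ 256 Q k` there is a badly approximable `ξ` with
`Q k ‖q ξ‖ ‖q ζ‖ ≥ c * min(1, log (Q (k+1)) / log (Q k) - 1)^12` for all `k` and all integers
`0 < q ≤ Q k`. -/
theorem result (ζ : ℝ) (hζ : BadlyApprox ζ) :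
    ∃ c C : ℝ, 0 < c ∧ 1 < C ∧ ∀ Q : ℕ → ℝ, C ≤ Q 0 → (∀ k, 256 * Q k ≤ Q (k+1)) →
      ∃ ξ : ℝ, BadlyApprox ξ ∧ ∀ k : ℕ, ∀ q : ℕ, 0 < q → (q:ℝ) ≤ Q k →
        c * (min 1 (Real.log (Q (k+1)) / Real.log (Q k) - 1))^12 ≤
          Q k * (nn ((q:ℝ) * ξ) * nn ((q:ℝ) * ζ)) := by
  obtain ⟨N0, C0, hN0, hC0, H⟩ := main hζ
  have hN0r : (1:ℝ) ≤ N0 := by exact_mod_cast hN0
  refine ⟨1/(16 * (5 * (N0:ℝ))^12), 16^C0, by positivity, ?_, ?_⟩
  · exact one_lt_pow₀ (by norm_num) (by omega)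
  intro Q hQ0 hQ
  have h16 : (0:ℝ) < Real.log 16 := Real.log_pos (by norm_num)
  have hC1 : (1:ℝ) ≤ (16:ℝ)^C0 := one_le_pow₀ (by norm_num)
  have hQge : ∀ k, (16:ℝ)^C0 ≤ Q k := by
    intro k
    induction k with
    | zero => exact hQ0
    | succ k ih =>
      have := hQ k
      linarith
  have hQ1 : ∀ k, (1:ℝ) ≤ Q k := fun k => hC1.trans (hQge k)
  have hQpos : ∀ k, (0:ℝ) < Q k := fun k => lt_of_lt_of_le one_pos (hQ1 k)
  -- logarithms to the base 16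
  obtain ⟨L, hL⟩ : ∃ L : ℕ → ℝ, L = fun k => Real.log (Q k) / Real.log 16 := ⟨_, rfl⟩
  have hLC : ∀ k, (C0:ℝ) ≤ L k := by
    intro k
    rw [hL]
    simp only
    rw [le_div_iff₀ h16, ← Real.log_pow]
    exact Real.log_le_log (by positivity) (hQge k)
  have hC0r : (1:ℝ) ≤ C0 := by exact_mod_cast hC0
  have hL1 : ∀ k, (1:ℝ) ≤ L k := fun k => hC0r.trans (hLC k)
  have hLstep : ∀ k, L k + 2 ≤ L (k+1) := by
    intro k
    rw [hL]
    simp only
    have h1 : Real.log (256 * Q k) ≤ Real.log (Q (k+1)) :=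
      Real.log_le_log (by have := hQpos k; positivity) (hQ k)
    rw [Real.log_mul (by norm_num) (hQpos k).ne'] at h1
    have h2 : Real.log 256 = 2 * Real.log 16 := by
      rw [show (256:ℝ) = 16^2 by norm_num, Real.log_pow]
      norm_num
    rw [h2] at h1
    rw [le_div_iff₀ h16, add_mul, div_mul_cancel₀ _ h16.ne']
    linarith
  have hexp : ∀ k, Q k = (16:ℝ)^(L k) := by
    intro k
    rw [Real.rpow_def_of_pos (by norm_num), hL]
    simp only
    rw [mul_div_cancel₀ _ h16.ne', Real.exp_log (hQpos k)]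
  -- the levels
  obtain ⟨a, ha⟩ : ∃ a : ℕ → ℕ, a = fun k => ⌊L k⌋₊ + 1 := ⟨_, rfl⟩
  have ha1 : ∀ k, L k < (a k : ℝ) := by
    intro k
    rw [ha]
    push_cast
    exact Nat.lt_floor_add_one _
  have ha2 : ∀ k, (a k : ℝ) ≤ L k + 1 := by
    intro k
    rw [ha]
    push_cast
    have := Nat.floor_le (by linarith [hL1 k] : 0 ≤ L k)
    linarith
  have haC : ∀ k, C0 ≤ a k := by
    intro k
    have h1 := hLC k
    have h2 := ha1 k
    have : (C0:ℝ) ≤ a k := by linarith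
    exact_mod_cast this
  have hstep : ∀ k, (L (k+1) - L k)/2 ≤ (a (k+1) : ℝ) - a k := by
    intro k
    have h1 := ha1 (k+1)
    have h2 := ha2 k
    have h3 := hLstep k
    linarith
  have hmono : StrictMono a := by
    refine strictMono_nat_of_lt_succ (fun k => ?_)
    have h1 := hstep k
    have h3 := hLstep k
    have : (a k : ℝ) < a (k+1) := by linarith
    exact_mod_cast this
  -- the multiplicities
  obtain ⟨s, hs⟩ : ∃ s : ℕ → ℕ, s = fun k => ⌈(a k : ℝ) / ((a (k+1) : ℝ) - a k)⌉₊ := ⟨_, rfl⟩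
  have hd : ∀ k, (0:ℝ) < (a (k+1) : ℝ) - a k := by
    intro k
    have h1 := hstep k
    have h3 := hLstep k
    linarith
  have hapos : ∀ k, (0:ℝ) < a k := fun k => by linarith [ha1 k, hL1 k]
  have hs1 : ∀ k, 1 ≤ s k := by
    intro k
    rw [hs]
    exact Nat.ceil_pos.2 (div_pos (hapos k) (hd k))
  have has : ∀ k, a k ≤ s k * (a (k+1) - a k) := by
    intro k
    have h1 : (a k : ℝ) / ((a (k+1) : ℝ) - a k) ≤ s k := by
      rw [hs]
      exact Nat.le_ceil _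
    rw [div_le_iff₀ (hd k)] at h1
    have h2 : a k ≤ a (k+1) := (hmono (Nat.lt_succ_self k)).le
    have : ((a k : ℕ) : ℝ) ≤ ((s k * (a (k+1) - a k) : ℕ) : ℝ) := by
      rw [Nat.cast_mul, Nat.cast_sub h2]
      exact h1
    exact_mod_cast this
  obtain ⟨ξ, hξ, hmain⟩ := H a s haC hs1 hmono has
  refine ⟨ξ, hξ, ?_⟩
  intro k q hq hqQ
  obtain ⟨η, hη⟩ : ∃ η : ℝ, η = Real.log (Q (k+1)) / Real.log (Q k) - 1 := ⟨_, rfl⟩
  rw [← hη]
  have hlogQ : Real.log (Q k) = L k * Real.log 16 := by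
    rw [hL]
    simp only
    rw [div_mul_cancel₀ _ h16.ne']
  have hlogQ' : Real.log (Q (k+1)) = L (k+1) * Real.log 16 := by
    rw [hL]
    simp only
    rw [div_mul_cancel₀ _ h16.ne']
  have hLk : (0:ℝ) < L k := by linarith [hL1 k]
  have hη2 : η = (L (k+1) - L k)/L k := by
    rw [hη, hlogQ, hlogQ', mul_div_mul_right _ _ h16.ne']
    field_simp
  have hη0 : 0 < η := by
    rw [hη2]
    have := hLstep k
    exact div_pos (by linarith) hLk
  obtain ⟨μ, hμ⟩ : ∃ μ : ℝ, μ = min 1 η := ⟨_, rfl⟩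
  rw [← hμ]
  have hμ0 : 0 < μ := by rw [hμ]; exact lt_min one_pos hη0
  have hμ1 : μ ≤ 1 := by rw [hμ]; exact min_le_left _ _
  have hμη : μ ≤ η := by rw [hμ]; exact min_le_right _ _
  -- the bound for s
  have hsk : (s k : ℝ) * μ ≤ 5 := by
    have h1 : (s k : ℝ) ≤ (a k : ℝ) / ((a (k+1) : ℝ) - a k) + 1 := by
      rw [hs]
      exact (Nat.ceil_lt_add_one (div_pos (hapos k) (hd k)).le).le
    have h2 : (a k : ℝ) / ((a (k+1) : ℝ) - a k) * η ≤ 4 := by
      rw [hη2, div_mul_div_comm, div_le_iff₀ (mul_pos (hd k) hLk)]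
      have h3 := ha2 k
      have h4 := hstep k
      have h5 := hL1 k
      have h6 := hLstep k
      have h7 : (a k : ℝ) ≤ 2 * L k := by linarith
      have h8 : L (k+1) - L k ≤ 2 * ((a (k+1) : ℝ) - a k) := by linarith
      calc (a k : ℝ) * (L (k+1) - L k) ≤ (2 * L k) * (2 * ((a (k+1) : ℝ) - a k)) := by
            refine mul_le_mul h7 h8 (by linarith) (by linarith)
        _ = 4 * (((a (k+1) : ℝ) - a k) * L k) := by ring
    have h9 : 0 ≤ (a k : ℝ) / ((a (k+1) : ℝ) - a k) := (div_pos (hapos k) (hd k)).le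
    calc (s k : ℝ) * μ ≤ ((a k : ℝ) / ((a (k+1) : ℝ) - a k) + 1) * μ := by gcongr
      _ = (a k : ℝ) / ((a (k+1) : ℝ) - a k) * μ + μ := by ring
      _ ≤ (a k : ℝ) / ((a (k+1) : ℝ) - a k) * η + 1 := by gcongr
      _ ≤ 5 := by linarith
  have hspos : (0:ℝ) < s k := by exact_mod_cast hs1 k
  have hpow : Q k ≤ ((16^(a k) : ℕ) : ℝ) := by
    rw [hexp k]
    push_cast
    rw [← Real.rpow_natCast]
    exact Real.rpow_le_rpow_of_exponent_le (by norm_num) (ha1 k).le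
  have hpow2 : ((16^(a k) : ℕ) : ℝ) ≤ 16 * Q k := by
    rw [hexp k]
    push_cast
    rw [← Real.rpow_natCast]
    calc (16:ℝ)^((a k : ℕ) : ℝ) ≤ (16:ℝ)^(L k + 1) :=
          Real.rpow_le_rpow_of_exponent_le (by norm_num) (ha2 k)
      _ = 16 * (16:ℝ)^(L k) := by
          rw [Real.rpow_add (by norm_num), Real.rpow_one, mul_comm]
  have hqle : q ≤ 16^(a k) := by
    have : (q:ℝ) ≤ ((16^(a k) : ℕ) : ℝ) := hqQ.trans hpow
    exact_mod_cast this
  have h1 := hmain k q hq hqle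
  obtain ⟨P, hP⟩ : ∃ P : ℝ, P = nn ((q:ℝ) * ξ) * nn ((q:ℝ) * ζ) := ⟨_, rfl⟩
  rw [← hP] at h1 ⊢
  have hP0 : 0 ≤ P := by
    rw [hP]
    exact mul_nonneg (abs_nonneg _) (abs_nonneg _)
  have h2 : 1/((N0 * s k : ℕ):ℝ)^12 ≤ 16 * (Q k * P) := by
    refine h1.trans ?_
    calc ((16^(a k) : ℕ) : ℝ) * P ≤ (16 * Q k) * P := by gcongr
      _ = 16 * (Q k * P) := by ring
  have h3 : (μ / (5 * (N0:ℝ)))^12 ≤ 1/((N0 * s k : ℕ):ℝ)^12 := by
    rw [← one_div_pow]
    refine pow_le_pow_left₀ (by positivity) ?_ 12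
    rw [div_le_div_iff₀ (by positivity) (by push_cast; positivity)]
    push_cast
    calc μ * ((N0:ℝ) * s k) = ((s k : ℝ) * μ) * N0 := by ring
      _ ≤ 5 * N0 := by gcongr
      _ = 1 * (5 * (N0:ℝ)) := by ring
  have h4 : 1/(16 * (5 * (N0:ℝ))^12) * μ^12 = (μ / (5 * (N0:ℝ)))^12 / 16 := by
    rw [div_pow]
    field_simp
  rw [h4]
  linarith

end Pool.Agent.Results.MP_e56372_nt.PrescribedGrowth
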